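import Pool.Agent.Helper43.GD.St

/-! Project GD (MP_b3ce06_al), module SA: `E(a)` and `F(b)` commute when `ab = 0`. -/

set_option autoImplicit false

namespace Pool.Agent.Helper64.GD

open Pool.Agent.Helper43.GD

/-- `h(d)² E(x) = E(d² x) h(d)²` -/
theorem hh_E {L A : Type} [CommRing L] [Group A] (Q : Fr L A) {d : Lˣ} (hd : d ∈ Q.U) (x : L) :
    Q.h d * Q.h d * Q.E x = Q.E ((d : L) * ((d : L) * x)) * (Q.h d * Q.h d) := by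
  have h1 := (Q.tor d hd).1 x
  have h2 := (Q.tor d hd).1 ((d : L) * x)
  rw [← h2, ← h1]
  group

/-- MODULE SA -/
theorem hSA (hRR : StRR) : StSA := by
  intro L A _ _ Q a b a₁ a₂ d₁ h1 h2 hd hab ha2 hdd
  have r1 := hRR L A Q a₁ d₁ b h1 hd hdd
  have dd : ((d₁⁻¹ : Lˣ) : L) * (d₁ : L) = 1 := d₁.inv_mul
  have e1 : ((d₁⁻¹ : Lˣ) : L) = 1 + (a₂ : L) * (((d₁⁻¹ : Lˣ) : L) * b) := by
    have e2 : ((d₁⁻¹ : Lˣ) : L) * (1 + a₁ * b) = 1 := by rw [← hdd]; exact dd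
    rw [ha2]
    linear_combination e2 - ((d₁⁻¹ : Lˣ) : L) * hab
  have r2 := hRR L A Q a₂ d₁⁻¹ (((d₁⁻¹ : Lˣ) : L) * b) h2 (Q.U.inv_mem hd) e1
  rw [inv_inv, Units.mul_inv_cancel_left, Q.h_inv hd] at r2
  -- `a / d₁ = a`
  have e3 : ((d₁⁻¹ : Lˣ) : L) * a = a := by
    have e4 : (d₁ : L) * a = a := by
      rw [hdd]
      linear_combination (a₁ : L) * hab
    calc ((d₁⁻¹ : Lˣ) : L) * a = ((d₁⁻¹ : Lˣ) : L) * ((d₁ : L) * a) := by rw [e4]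
      _ = a := by rw [← mul_assoc, dd, one_mul]
  have e5 : a = a₂ + a₁ := by rw [ha2]; ring
  have k1 := hh_E Q hd (((d₁⁻¹ : Lˣ) : L) * (a₂ : L))
  rw [Units.mul_inv_cancel_left] at k1
  calc Q.E a * Q.F b = Q.E a₂ * (Q.E a₁ * Q.F b) := by
        conv_lhs => rw [e5, Q.Eadd]
        rw [mul_assoc]
    _ = (Q.E a₂ * Q.F (((d₁⁻¹ : Lˣ) : L) * b)) * (Q.h d₁ * Q.h d₁) *
          Q.E (((d₁⁻¹ : Lˣ) : L) * a₁) := by
        rw [r1]; simp only [mul_assoc]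
    _ = Q.F b * (((Q.h d₁)⁻¹ * (Q.h d₁)⁻¹) * (Q.E ((d₁ : L) * a₂) * (Q.h d₁ * Q.h d₁))) *
          Q.E (((d₁⁻¹ : Lˣ) : L) * a₁) := by
        rw [r2]; simp only [mul_assoc]
    _ = Q.F b * (Q.E (((d₁⁻¹ : Lˣ) : L) * (a₂ : L)) * Q.E (((d₁⁻¹ : Lˣ) : L) * a₁)) := by
        rw [← k1]; group
    _ = Q.F b * Q.E a := by
        rw [← Q.Eadd, ← mul_add, ← e5, e3]

end Pool.Agent.Helper64.GD
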